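import Pool.Agent.H25.DP.Def

/-! # DPR.Def : zero-cycles on the powers of a K3 surface of degree 2 (definitions only, no sorry)

`K` is algebraically closed of characteristic zero, `f` a smooth sextic form in three variables (`Sm f`), `X : z^2 = f(p)` in the weighted projective space `P(1,1,1,3)`, `L` an algebraically closed field containing `K`.
`XP f L` (`H25.DP.Def`): the coordinate vectors `(p, z)`, `p ≠ 0`, of the points of `X` over `L`.  `Om L` is the algebraic closure of `L(t)`, `Place L (Om L)` an `L`-rational place of it (`H68.BB.Def`), `Rd V φ x a` means `x ∈ V` and `φ x = a` (`H68.BB.Red`). -/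

namespace H25.DPR

open H68.BB (Om Place Rd)
open H25.DP

/-- zero-cycles on `X^k` over `L`: the free abelian group on the `k`-tuples of coordinate vectors -/
abbrev Cyc {K : Type} [Field K] (f : MvPolynomial (Fin 3) K) (L : Type) [Field L] [Algebra K L] (k : ℕ) : Type :=
  (Fin k → XP f L) →₀ ℤ

variable {K : Type} [Field K] {f : MvPolynomial (Fin 3) K} {L : Type} [Field L] [Algebra K L]

/-- apply an automorphism of `Om L` over `L(t)` to the coordinates -/
noncomputable def conj (σ : Om L ≃ₐ[RatFunc L] Om L) (P : XP f (Om L)) : XP f (Om L) where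
  p := fun i => σ (P.p i)
  z := σ P.z
  ne := fun h => P.ne (by
    funext i
    exact (map_eq_zero_iff σ σ.injective).1 (congrFun h i))
  eq := by
    have h1 := congrArg σ P.eq
    rw [map_pow] at h1
    rw [h1]
    exact ev_map (σ.toAlgHom.restrictScalars K) f P.p

/-- the point `P` over `Om L` specialises to the point `Q` over `L` at the place `π`: a scalar multiple `(c p, c^3 z)` of its
coordinate vector is integral and reduces to the coordinate vector of `Q` -/
def Sp (π : Place L (Om L)) (P : XP f (Om L)) (Q : XP f L) : Prop :=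
  ∃ c : Om L, c ≠ 0 ∧ (∀ i, Rd π.V π.φ (c * P.p i) (Q.p i)) ∧ Rd π.V π.φ (c ^ 3 * P.z) Q.z

/-- specialisation of a `k`-tuple of points -/
def SpT {k : ℕ} (π : Place L (Om L)) (P : Fin k → XP f (Om L)) (Q : Fin k → XP f L) : Prop := ∀ i, Sp π (P i) (Q i)

/-- the multiset of tuples is stable under the automorphisms of `Om L` over `L(t)`: it is the generic fibre of an effective
1-cycle of `ℙ¹ × X^k` all of whose components dominate `ℙ¹` -/
def GalStable {k : ℕ} (S : Multiset (Fin k → XP f (Om L))) : Prop :=
  ∀ σ : Om L ≃ₐ[RatFunc L] Om L, S.map (fun P i => conj σ (P i)) = S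

/-- the zero-cycle given by a multiset of tuples -/
noncomputable def cyc {k : ℕ} (c : Multiset (Fin k → XP f L)) : Cyc f L k :=
  (c.map (fun P => (Finsupp.single P 1 : Cyc f L k))).sum

variable (f L) in
/-- the zero-cycles on `X^k` which are rationally equivalent to zero: the subgroup generated by the differences of two fibres
over `ℙ¹` of effective 1-cycles of `ℙ¹ × X^k` dominating `ℙ¹` (this contains the differences of proportional coordinate
vectors, since a specialisation is only determined up to scalars) -/
noncomputable def RatEq (k : ℕ) : AddSubgroup (Cyc f L k) :=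
  AddSubgroup.closure {z | ∃ (S : Multiset (Fin k → XP f (Om L))) (π π' : Place L (Om L))
    (c c' : Multiset (Fin k → XP f L)), GalStable S ∧ Multiset.Rel (SpT π) S c ∧ Multiset.Rel (SpT π') S c' ∧
    z = cyc c - cyc c'}

/-- the degree of a zero-cycle on `X` -/
def deg (z : XP f L →₀ ℤ) : ℤ := z.sum fun _ n => n

open Classical in
/-- the exterior product `z_0 × ... × z_(k-1)` of zero-cycles on `X` -/
noncomputable def prod {k : ℕ} (z : Fin k → XP f L →₀ ℤ) : Cyc f L k :=
  ∑ t ∈ Fintype.piFinset (fun i => (z i).support), Finsupp.single t (∏ i, z i (t i))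

/-- the antisymmetrised product `∑_σ sgn(σ) z_σ(0) × ... × z_σ(k-1)` -/
noncomputable def alt {k : ℕ} (z : Fin k → XP f L →₀ ℤ) : Cyc f L k :=
  ∑ σ : Equiv.Perm (Fin k), (Equiv.Perm.sign σ : ℤ) • prod (fun i => z (σ i))

/-- the value of a polynomial `G(p_0, p_1, p_2, z)` at a point of `X` -/
noncomputable def val (G : MvPolynomial (Fin 4) K) (P : XP f L) : L :=
  MvPolynomial.aeval ![P.p 0, P.p 1, P.p 2, P.z] G

end H25.DPR
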