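import Pool.Agent.H25.DPR.Def
import Pool.Agent.H25.DP2.Fin

/-! # DPR.Main : the two theorems in the explicit form of `DPR.Def` -/

namespace H25.DPR

open H68.BB (Om Place Rd)
open H25.DP

variable {K : Type} [Field K] {f : MvPolynomial (Fin 3) K} {L : Type} [Field L] [Algebra K L]

theorem rat_le {k : ℕ} {x : H77.AF.Cyc (xpd L f) k} (hx : x ∈ H77.AF.RatEq (xpd L f) k) :
    (show Cyc f L k from x) ∈ RatEq f L k := by
  have h : H77.AF.RatEq (xpd L f) k ≤ (show AddSubgroup (H77.AF.Cyc (xpd L f) k) from RatEq f L k) := by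
    unfold H77.AF.RatEq
    rw [AddSubgroup.closure_le]
    rintro z ⟨S, π, π', c, c', hG, h1, h2, rfl⟩
    have hfib : ∀ (π : Place L (Om L)) (c : Multiset (Fin k → (xpd L f).X)), H77.AF.Fibre π S c →
        Multiset.Rel (H77.AF.SpT π) S c := by
      rintro π c ⟨S1, S2, hS, h3, h4⟩
      have h5 : S2 = 0 := by
        rw [Multiset.eq_zero_iff_forall_notMem]
        intro P hP
        obtain ⟨i, hi⟩ := h4 P hP
        exact hi
      rw [h5, add_zero] at hS
      rw [hS]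
      exact h3
    exact AddSubgroup.subset_closure ⟨S, π, π', c, c', hG, hfib π c h1, hfib π' c' h2, rfl⟩
  exact h hx

theorem tor_le {k : ℕ} {x : H77.AF.Cyc (xpd L f) k} (hx : x ∈ H77.AF.tor (H77.AF.RatEq (xpd L f) k)) :
    ∃ M : ℕ, 0 < M ∧ M • (show Cyc f L k from x) ∈ RatEq f L k := by
  obtain ⟨M, hM, h⟩ := hx
  exact ⟨M, hM, rat_le h⟩

/-- `Λ^k CH_0(X)_0 = 0` for large `k`, every K3 surface of degree 2 -/
theorem dp1 [IsAlgClosed K] [CharZero K] (hf : Sm f) :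
    ∃ N : ℕ, 0 < N ∧ ∀ k, N ≤ k → ∀ (L : Type) [Field L] [IsAlgClosed L] [Algebra K L] (z : Fin k → XP f L →₀ ℤ),
      (∀ i, deg (z i) = 0) → ∃ M : ℕ, 0 < M ∧ M • alt z ∈ RatEq f L k := by
  obtain ⟨N, hN⟩ := main (abt K) hf
  refine ⟨N + 1, Nat.succ_pos N, ?_⟩
  intro k hk L _ _ _ z hz
  have hNk : N ≤ k := by omega
  refine tor_le (x := altZ z) (alt_z (K := L) (f := f) (N := k) ?_ z hz)
  intro P
  exact alt_up (P := P) (ι := Fin.castLE hNk) (Fin.castLE_injective hNk) (hN L _)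

/-- products of zero-cycles of degree zero on a curve of a K3 surface of degree 2 -/
theorem dp2 [IsAlgClosed K] [CharZero K] (hf : Sm f) {G : MvPolynomial (Fin 4) K} {w : ℕ}
    (hG : MvPolynomial.IsWeightedHomogeneous ![1, 1, 1, 3] G w) (hne : ∃ P : XP f K, val G P ≠ 0) :
    ∃ M : ℕ, 0 < M ∧ ∀ (L : Type) [Field L] [IsAlgClosed L] [Algebra K L] (z : Fin M → XP f L →₀ ℤ),
      (∀ i, deg (z i) = 0) → (∀ i, ∀ P ∈ (z i).support, val G P = 0) →
      ∃ N : ℕ, 0 < N ∧ N • prod z ∈ RatEq f L M := by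
  obtain ⟨M, hM, h⟩ := v1x (abt K) hf (G := G) (w := w) hG hne
  refine ⟨M, hM, ?_⟩
  intro L _ _ _ z hz hs
  exact tor_le (h L z hz hs)

end H25.DPR
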